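import Pool.Agent.L0h33.CX.SND

/-!
# Project CX: module CMP (helper33)
-/

set_option autoImplicit false
set_option linter.all false

namespace Pool.Agent.L0h33.CX

open Relation
open Pool.Agent.L0h32.CX
open Pool.Agent.H630R2.LA (LimAut Sym fz Fr Cfg Step init initTape WS lrel bitS ix nr Ann keep
  finite_WS rewrite_keep lift nr_zero)

section cmp

variable {A : Type} [Finite A] {h : ℕ} {rel : A → Fin (2 ^ h) → Fin (2 ^ h) → Bool}
  {p0 : Fin (2 ^ h)} {facc : Fin (2 ^ h) → Bool} {hQ : Finite {s : St (A := A) h // Bd h s}}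

/-- runs on the frozen tape are runs of the machine -/
theorem rs_fr {strict : Prop} {τ : ℕ → Sym (WS A)} {n : ℕ} {c c' : St (A := A) h × ℕ}
    (hr : ReflTransGen (RS h rel p0 facc τ n) c c') (hb : Bd h c.1) :
    ∃ hb' : Bd h c'.1, ReflTransGen (Fr strict (ndM h rel p0 facc hQ) τ n)
      ((⟨c.1, hb⟩ : {s : St (A := A) h // Bd h s}), c.2) (⟨c'.1, hb'⟩, c'.2) := by
  induction hr with
  | refl => exact ⟨hb, ReflTransGen.refl⟩
  | tail _ hstep ih =>
    obtain ⟨hb1, hrun⟩ := ih
    obtain ⟨h1, h2, d, h3, h4, h5⟩ := hstep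
    exact ⟨h2, hrun.tail ⟨h1, d, ⟨_, h3, fun _ => rewrite_keep _⟩, h4, h5⟩⟩

theorem bd_start {x : Wr} (hx : BdW h x) (a : Option A) {job : ℕ} (hj : job ≤ 2) :
    Bd h (.hm (start x a job)) := by
  obtain ⟨h1, h2, h3⟩ := hx
  exact ⟨h1, h2, h3, hj, Nat.zero_le _, Nat.zero_le _, Nat.zero_le _, Nat.zero_le _,
    Nat.zero_le _⟩

/-- The main loop. -/
theorem loop (hN : S_NXT) {strict : Prop} (w : List A) (t : ℕ) (ht : t ≤ w.length) :
    ∃ (τ : ℕ → Sym (WS A)) (S : Set ℕ) (x : Wr) (hx : BdW h x), Ann h rel p0 w τ t ∧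
      (∀ i, t < i → τ i = initTape (ndM h rel p0 facc hQ) w i) ∧
      (∀ i, 1 ≤ i → (i ∈ S ↔ i ≤ t)) ∧ WOK h rel p0 w t x ∧
      ReflTransGen (Step strict w.length) (init (ndM h rel p0 facc hQ) w)
        ⟨⟨.wr x, hx⟩, t + 1, τ, S⟩ := by
  induction t with
  | zero =>
    refine ⟨initTape (ndM h rel p0 facc hQ) w, ∅, w0 h p0, bd_w0 (A := A) h p0, ⟨rfl, ?_⟩,
      fun _ _ => rfl, ?_, wok0 w, ReflTransGen.refl⟩
    · intro i hi; exact absurd hi (Nat.not_lt_zero _)
    · intro i hi; simp; omega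
  | succ t ih =>
    obtain ⟨τ, S, x, hx, hA, hτ, hS, hW, hreach⟩ := ih (by omega)
    have hlt : t < w.length := by omega
    have hwt : w[t]? = some w[t] := List.getElem?_eq_getElem hlt
    have hcell : τ (t + 1) = .sym (.raw w[t]) :=
      (hτ (t + 1) (by omega)).trans (init_sym hlt)
    have hA' := ann_new hA hW hlt
    have hnot : t + 1 ∉ S := by
      intro h
      have := (hS (t + 1) (by omega)).1 h
      omega
    have hS1 : ∀ i, 1 ≤ i → (i ∈ insert (t + 1) S ↔ i ≤ t + 1) := by
      intro i hi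
      rw [Set.mem_insert_iff, hS i hi]
      omega
    have hb : Bd h (.hm (start x (some w[t]) 0)) := bd_start hx _ (by norm_num)
    have hstep : Step strict w.length
        (⟨⟨.wr x, hx⟩, t + 1, τ, S⟩ : Cfg (ndM h rel p0 facc hQ))
        ⟨⟨.hm (start x (some w[t]) 0), hb⟩, t,
          Function.update τ (t + 1) (.sym (.mark w[t] x.b)), insert (t + 1) S⟩ := by
      refine ⟨by show t + 1 ≤ w.length + 1; omega, _, .mark w[t] x.b, false, ?_,
        fun _ h => absurd h hnot, rfl, fun h => absurd h hnot, ?_, rfl, by simp, by simp⟩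
      · show Tr h rel p0 facc (.wr x) (τ (t + 1)) _ _ _
        rw [hcell]
        exact Tr.wrL x w[t]
      · intro _
        show _ = Function.update τ (t + 1) ((τ (t + 1)).rewrite (.mark w[t] x.b))
        rw [hcell]
        rfl
    obtain ⟨x', hW', hrun⟩ := hN A h rel p0 facc w t _ hlt hA' x hW
    rw [hwt] at hrun
    obtain ⟨hb', hrun'⟩ := rs_fr (strict := strict) (hQ := hQ) hrun hb
    obtain ⟨S', hS', hlift⟩ := lift (n := w.length) (by omega) hA'.1 hrun' _ hS1
    refine ⟨_, S', x', hb', hA', ?_, hS', hW', (hreach.tail hstep).trans hlift⟩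
    intro i hi
    rw [Function.update_of_ne (by omega)]
    exact hτ i (by omega)

end cmp

/-- **CMP** -/
theorem t_CMP (hN : S_NXT) (hE : S_ENU) : S_CMP := by
  intro A _ strict h rel p0 facc hQ w hw
  obtain ⟨τ, S, x, hx, hA, hτ, hS, hW, hreach⟩ := loop (strict := strict) (rel := rel) (p0 := p0)
    (facc := facc) (hQ := hQ) hN w w.length le_rfl
  have hcell : τ (w.length + 1) = .rm := (hτ (w.length + 1) (by omega)).trans (init_rm w)
  have hnot : w.length + 1 ∉ S := by
    intro h
    have := (hS (w.length + 1) (by omega)).1 h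
    omega
  have hS1 : ∀ i, 1 ≤ i → (i ∈ insert (w.length + 1) S ↔ i ≤ w.length + 1) := by
    intro i hi
    rw [Set.mem_insert_iff, hS i hi]
    omega
  have hb : Bd (A := A) h (.hm (start x none 2)) := bd_start hx _ le_rfl
  have hstep : Step strict w.length
      (⟨⟨.wr x, hx⟩, w.length + 1, τ, S⟩ : Cfg (ndM h rel p0 facc hQ))
      ⟨⟨.hm (start x none 2), hb⟩, w.length, τ, insert (w.length + 1) S⟩ := by
    refine ⟨le_rfl, _, .dum, false, ?_, fun _ h => absurd h hnot, rfl,
      fun h => absurd h hnot, ?_, rfl, by simp, by simp⟩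
    · show Tr h rel p0 facc (.wr x) (τ (w.length + 1)) _ _ _
      rw [hcell]
      exact Tr.wrR x
    · intro _
      show τ = Function.update τ (w.length + 1) ((τ (w.length + 1)).rewrite .dum)
      funext i
      by_cases hi : i = w.length + 1
      · subst hi
        rw [Function.update_self, hcell]
        rfl
      · rw [Function.update_of_ne hi]
  have hmin : min (w.length + 1) w.length = w.length := by omega
  have hm : MOK h rel p0 facc w w.length (start x none 2) := mok_end hW
  obtain ⟨f, hf, hrun⟩ := hE A h rel p0 facc w w.length τ le_rfl (by rw [hmin]; exact hA)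
    (start x none 2) hm hb rfl rfl rfl
  have hq : qpos h w.length (start x (none : Option A) 2) = w.length := by
    simp [qpos, start]
  rw [hq] at hf hrun
  have hff : f = false := by
    rw [Bool.eq_false_iff]
    intro h1
    obtain ⟨q, h2, h3⟩ := hf.mp h1
    apply hw
    refine ⟨q, ?_, h2⟩
    simpa [tst, start] using h3
  obtain ⟨hb1, hrun1⟩ := rs_fr (strict := strict) (hQ := hQ) hrun hb
  have hacc : Acc h { start x (none : Option A) 2 with
      z := 2 ^ h, d := cN h rel p0 w w.length, f := f } := by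
    refine ⟨rfl, rfl, ?_, hff⟩
    exact hW.2.2.1.symm
  have hs1 : Fr strict (ndM h rel p0 facc hQ) τ (w.length + 1) (⟨_, hb1⟩, w.length)
      ((⟨.f1, trivial⟩ : {s : St (A := A) h // Bd h s}), w.length + 1) := by
    refine ⟨by show w.length ≤ w.length + 1; omega, true, ⟨keep (τ w.length), ?_,
      fun _ => rewrite_keep _⟩, fun _ => rfl, fun h => absurd h (by simp)⟩
    exact Tr.acc _ _ hacc
  have hs2 : Fr strict (ndM h rel p0 facc hQ) τ (w.length + 1)
      ((⟨.f1, trivial⟩ : {s : St (A := A) h // Bd h s}), w.length + 1)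
      (⟨.fin, trivial⟩, w.length + 2) := by
    refine ⟨le_rfl, true, ⟨keep (τ (w.length + 1)), ?_, fun _ => rewrite_keep _⟩, fun _ => rfl,
      fun h => absurd h (by simp)⟩
    exact Tr.fin _
  obtain ⟨S', hS', hlift⟩ := lift (n := w.length) le_rfl hA.1 ((hrun1.tail hs1).tail hs2) _ hS1
  exact ⟨_, (hreach.tail hstep).trans hlift, rfl, rfl⟩

end Pool.Agent.L0h33.CX
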