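import Pool.Agent.L0h32.CX.Stm

/-!
# Project CX: modules SND and CMP (helper33)
-/

set_option autoImplicit false
set_option linter.all false

namespace Pool.Agent.L0h33.CX

open Relation
open Pool.Agent.L0h32.CX
open Pool.Agent.H630R2.LA (LimAut Sym fz Fr Cfg Step init initTape WS lrel bitS ix nr Ann keep
  finite_WS rewrite_keep lift nr_zero)

section

variable {A : Type} {h : ℕ} {rel : A → Fin (2 ^ h) → Fin (2 ^ h) → Bool} {p0 : Fin (2 ^ h)}
  {facc : Fin (2 ^ h) → Bool}

theorem cN_zero (w : List A) : cN h rel p0 w 0 = 1 := by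
  classical
  unfold cN
  rw [Finset.card_eq_one]
  refine ⟨p0, ?_⟩
  ext q
  rw [Finset.mem_filter, Finset.mem_singleton, nr_zero]
  simp

/-- the initial data are right -/
theorem wok0 (w : List A) : WOK h rel p0 w 0 (w0 h p0) := by
  refine ⟨?_, ?_, ?_, ?_, ?_⟩
  · simp [w0]
  · simp [w0]
  · rw [cN_zero]
    rfl
  · rw [Nat.zero_div, Nat.zero_mul, cN_zero]
    rfl
  · rw [Nat.zero_div, Nat.zero_mul, nr_zero]
    simp [w0]

/-- the memory after the visit of a letter -/
theorem mok_start {w : List A} {t : ℕ} {x : Wr} (hx : WOK h rel p0 w t x) (ht : t < w.length) :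
    MOK h rel p0 facc w t (start x w[t]? 0) := by
  obtain ⟨h1, h2, h3, h4, -⟩ := hx
  refine ⟨h1, h2, h3, h4, Nat.zero_le _, ⟨∅, ?_, rfl, ?_⟩, Or.inl ⟨rfl, ht, rfl, Nat.zero_le _, ?_,
    ?_⟩⟩
  · intro q hq
    exact absurd hq (Finset.notMem_empty q)
  · simp [start]
  · simp [start]
  · intro hc
    exact absurd hc (Nat.lt_irrefl 0)

/-- the memory after the visit of the right end-marker -/
theorem mok_end {w : List A} {x : Wr} (hx : WOK h rel p0 w w.length x) :
    MOK h rel p0 facc w w.length (start x none 2) := by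
  obtain ⟨h1, h2, h3, h4, -⟩ := hx
  refine ⟨h1, h2, h3, h4, Nat.zero_le _, ⟨∅, ?_, rfl, ?_⟩, Or.inr (Or.inr ⟨rfl, rfl⟩)⟩
  · intro q hq
    exact absurd hq (Finset.notMem_empty q)
  · simp [start]

theorem init_sym [Finite A] {hQ : Finite {s : St (A := A) h // Bd h s}} {w : List A} {t : ℕ}
    (ht : t < w.length) :
    initTape (ndM h rel p0 facc hQ) w (t + 1) = .sym (.raw w[t]) := by
  have h1 : w[t]? = some w[t] := List.getElem?_eq_getElem ht
  simp only [initTape, h1]
  rfl

theorem init_rm [Finite A] {hQ : Finite {s : St (A := A) h // Bd h s}} (w : List A) :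
    initTape (ndM h rel p0 facc hQ) w (w.length + 1) = .rm := by
  simp only [initTape, List.getElem?_eq_none (le_refl w.length)]

/-- the annotation of a new cell -/
theorem ann_new {w : List A} {t : ℕ} {τ : ℕ → Sym (WS A)} {x : Wr} (hA : Ann h rel p0 w τ t)
    (hx : WOK h rel p0 w t x) (ht : t < w.length) :
    Ann h rel p0 w (Function.update τ (t + 1) (.sym (.mark w[t] x.b))) (t + 1) := by
  refine ⟨?_, ?_⟩
  · rw [Function.update_of_ne (by omega)]
    exact hA.1
  · intro i hi
    rcases Nat.lt_or_ge i t with h1 | h1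
    · rw [Function.update_of_ne (by omega)]
      exact hA.2 i h1
    · have h2 : i = t := by omega
      subst h2
      rw [Function.update_self]
      exact ⟨w[i], x.b, List.getElem?_eq_getElem ht, rfl, hx.2.2.2.2⟩

end

section snd

variable {A : Type} [Finite A] {h : ℕ} {rel : A → Fin (2 ^ h) → Fin (2 ^ h) → Bool}
  {p0 : Fin (2 ^ h)} {facc : Fin (2 ^ h) → Bool} {hQ : Finite {s : St (A := A) h // Bd h s}}

/-- what is known of a configuration -/
def Inv (w : List A) (c : Cfg (ndM h rel p0 facc hQ)) : Prop :=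
  ∃ t ≤ w.length,
    (∃ x, c.state.1 = .wr x ∧ c.pos = t + 1 ∧ WOK h rel p0 w t x ∧ Ann h rel p0 w c.tape t ∧
      (∀ i, t < i → c.tape i = initTape (ndM h rel p0 facc hQ) w i) ∧
      (∀ i, 1 ≤ i → (i ∈ c.seen ↔ i ≤ t))) ∨
    (SOK h rel p0 facc w t c.state.1 c.pos ∧ Ann h rel p0 w c.tape (min (t + 1) w.length) ∧
      (∀ i, min (t + 1) w.length < i → c.tape i = initTape (ndM h rel p0 facc hQ) w i) ∧
      (∀ i, 1 ≤ i → (i ∈ c.seen ↔ i ≤ t + 1)))

theorem inv_init (w : List A) : Inv w (init (ndM h rel p0 facc hQ) w) := by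
  refine ⟨0, Nat.zero_le _, Or.inl ⟨w0 h p0, rfl, rfl, wok0 w, ⟨rfl, ?_⟩, fun _ _ => rfl, ?_⟩⟩
  · intro i hi
    exact absurd hi (Nat.not_lt_zero _)
  · intro i hi
    constructor
    · intro hc
      exact absurd hc (Set.notMem_empty i)
    · intro hc
      omega

theorem inv_step (hM : S_MOV) {strict : Prop} {w : List A} {c c' : Cfg (ndM h rel p0 facc hQ)}
    (hc : Inv w c) (hs : Step strict w.length c c') : Inv w c' := by
  obtain ⟨hpos, q, b, d, hδ, -, hst, ht1, ht2, hseen, hr, hl⟩ := hs
  have hTr : Tr h rel p0 facc c.state.1 (c.tape c.pos) q.1 b d := hδ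
  obtain ⟨t, ht, ⟨x, e1, e2, hW, hA, hτ, hS⟩ | ⟨hSOK, hA, hτ, hS⟩⟩ := hc
  · -- a new cell
    have hnot : c.pos ∉ c.seen := by
      rw [e2]
      intro hc
      have := (hS (t + 1) (by omega)).1 hc
      omega
    have htape := ht2 hnot
    have hseen' : ∀ i, 1 ≤ i → (i ∈ c'.seen ↔ i ≤ t + 1) := by
      intro i hi
      rw [hseen, Set.mem_insert_iff, hS i hi, e2]
      omega
    rw [e1] at hTr
    rcases Nat.lt_or_ge t w.length with hlt | hge
    · have hcell : c.tape c.pos = .sym (.raw w[t]) := by
        rw [e2, hτ (t + 1) (by omega), init_sym hlt]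
      rw [hcell] at hTr
      have hq : q.1 = .hm (start x (some w[t]) 0) ∧ b = .mark w[t] x.b ∧ d = false := by
        generalize q.1 = s' at hTr
        cases hTr
        exact ⟨rfl, rfl, rfl⟩
      obtain ⟨q1, q2, q3⟩ := hq
      have hpos' : c'.pos = t := by
        have := hl q3
        omega
      have hwt : w[t]? = some w[t] := List.getElem?_eq_getElem hlt
      have hmin : min (t + 1) w.length = t + 1 := by omega
      have htape' : c'.tape = Function.update c.tape (t + 1) (.sym (.mark w[t] x.b)) := by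
        rw [htape, hcell, q2, e2]
        rfl
      refine ⟨t, ht, Or.inr ⟨?_, ?_, ?_, hseen'⟩⟩
      · rw [hst, q1, hpos', ← hwt]
        exact ⟨mok_start hW hlt, rfl⟩
      · rw [hmin, htape']
        exact ann_new hA hW hlt
      · intro i hi
        rw [hmin] at hi
        rw [htape', Function.update_of_ne (by omega)]
        exact hτ i (by omega)
    · have hteq : t = w.length := by omega
      subst hteq
      have hcell : c.tape c.pos = .rm := by
        rw [e2, hτ (w.length + 1) (by omega), init_rm]
      rw [hcell] at hTr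
      have hq : q.1 = .hm (start x none 2) ∧ b = .dum ∧ d = false := by
        generalize q.1 = s' at hTr
        cases hTr
        exact ⟨rfl, rfl, rfl⟩
      obtain ⟨q1, q2, q3⟩ := hq
      have hpos' : c'.pos = w.length := by
        have := hl q3
        omega
      have hmin : min (w.length + 1) w.length = w.length := by omega
      have htape' : c'.tape = c.tape := by
        rw [htape, hcell]
        funext i
        by_cases hi : i = c.pos
        · subst hi
          rw [Function.update_self, hcell]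
          rfl
        · rw [Function.update_of_ne hi]
      refine ⟨w.length, le_rfl, Or.inr ⟨?_, ?_, ?_, hseen'⟩⟩
      · rw [hst, q1, hpos']
        exact ⟨mok_end hW, rfl⟩
      · rw [hmin, htape']
        exact hA
      · intro i hi
        rw [hmin] at hi
        rw [htape']
        exact hτ i hi
  · -- a move on the frozen part
    obtain ⟨hb, -, hcase⟩ := hM A h rel p0 facc w t c.tape ht hA c.state.1 q.1 c.pos c'.pos b d hSOK
      hTr hr hl
    have htape' : c'.tape = c.tape := by
      by_cases hin : c.pos ∈ c.seen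
      · exact ht1 hin
      · have hrk : (c.tape c.pos).rewrite (keep (c.tape c.pos)) = c.tape c.pos :=
          rewrite_keep (c.tape c.pos)
        rw [ht2 hin, hb]
        funext i
        by_cases hi : i = c.pos
        · subst hi
          rw [Function.update_self]
          exact hrk
        · rw [Function.update_of_ne hi]
    rcases hcase with ⟨-, hf⟩ | ⟨x, e1, e2, e3, e4, hW, hlt⟩ | ⟨hx, hSOK'⟩
    · exact absurd hf id
    · have hmin : min (t + 1) w.length = t + 1 := by omega
      rw [hmin] at hA hτ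
      refine ⟨t + 1, by omega, Or.inl ⟨x, ?_, e3, hW, ?_, ?_, ?_⟩⟩
      · rw [hst]
        exact e2
      · rw [htape']
        exact hA
      · intro i hi
        rw [htape']
        exact hτ i hi
      · intro i hi
        rw [hseen, Set.mem_insert_iff, hS i hi, e4]
        omega
    · refine ⟨t, ht, Or.inr ⟨?_, ?_, ?_, ?_⟩⟩
      · rw [hst]
        exact hSOK'
      · rw [htape']
        exact hA
      · intro i hi
        rw [htape']
        exact hτ i hi
      · intro i hi
        rw [hseen, Set.mem_insert_iff, hS i hi]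
        omega

end snd

theorem inv_reach {A : Type} [Finite A] {h : ℕ} {rel : A → Fin (2 ^ h) → Fin (2 ^ h) → Bool}
    {p0 : Fin (2 ^ h)} {facc : Fin (2 ^ h) → Bool} {hQ : Finite {s : St (A := A) h // Bd h s}}
    (hM : S_MOV) {strict : Prop} {w : List A} {c : Cfg (ndM h rel p0 facc hQ)}
    (hc : ReflTransGen (Step strict w.length) (init (ndM h rel p0 facc hQ) w) c) : Inv w c := by
  induction hc with
  | refl => exact inv_init w
  | tail _ hstep ih => exact inv_step hM ih hstep

/-- **SND** -/
theorem t_SND (hM : S_MOV) : S_SND := by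
  intro A _ strict h rel p0 facc hQ w hw
  obtain ⟨c, hreach, hpos, hF⟩ := hw
  have hF' : c.state.1 = .fin := hF
  obtain ⟨t, ht, ⟨x, e1, -⟩ | ⟨hSOK, -⟩⟩ := inv_reach hM hreach
  · rw [hF'] at e1
    exact absurd e1 (by simp)
  · rw [hF'] at hSOK
    exact hSOK

end Pool.Agent.L0h33.CX
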